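import Pool.Agent.Y995.LG.Stm

/-!
# Project LG: the number of steps of the closed lattice path in terms of boundary sides
-/

set_option autoImplicit false

namespace Pool.Agent.Y945.LG

open H984P H974 Pool.Agent.Y995.LG
open H342P (EC Outer bdist)

/-- the state with edge `e` and face `dsrc e` -/
def st1 (e : Edg) : St := if e.2.2 then ((e.1 + 1, e.2.1), .sw) else ((e.1, e.2.1), .nw)

/-- the state with edge `e` and face `dtgt e` -/
def st2 (e : Edg) : St := if e.2.2 then ((e.1, e.2.1), .ne) else ((e.1, e.2.1 + 1), .se)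

lemma st_cases (μ : St) : (μ = st1 (ae μ) ∧ face μ = dsrc (ae μ)) ∨
    (μ = st2 (ae μ) ∧ face μ = dtgt (ae μ)) := by
  obtain ⟨⟨x, y⟩, q⟩ := μ
  cases q
  · right; simp [st2]
  · left; simp [st1]
  · left; simp [st1]
  · right; simp [st2]

lemma vert (μ : St) : μ.1 = src (ae μ) ∨ μ.1 = tgt (ae μ) := by
  obtain ⟨⟨x, y⟩, q⟩ := μ
  cases q
  · left; simp
  · left; simp
  · right; simp
  · right; simp

lemma fmv (μ : St) : face (mv μ) = face μ := by
  obtain ⟨⟨x, y⟩, q⟩ := μ
  cases q <;> simp

lemma frt (μ : St) : (dsrc (ae μ) = face (rt μ) ∧ dtgt (ae μ) = face μ) ∨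
    (dsrc (ae μ) = face μ ∧ dtgt (ae μ) = face (rt μ)) := by
  obtain ⟨⟨x, y⟩, q⟩ := μ
  cases q <;> simp

lemma rt_fst (μ : St) : (rt μ).1 = μ.1 := by
  obtain ⟨⟨x, y⟩, q⟩ := μ
  cases q <;> simp

lemma rt4 (μ : St) : rt (rt (rt (rt μ))) = μ := by
  obtain ⟨⟨x, y⟩, q⟩ := μ
  cases q <;> simp

lemma mv_adj {F : Set Edg} {μ : St} (h : ae μ ∈ F) : Adj F μ.1 (mv μ).1 := by
  obtain ⟨⟨x, y⟩, q⟩ := μ
  refine ⟨_, h, ?_⟩
  cases q <;> simp

lemma bdist_src {n : ℕ} {ρ : ℤ} {μ : St} (h : bdist n μ.1 < ρ) : bdist n (src (ae μ)) < ρ + 1 := by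
  obtain ⟨⟨x, y⟩, q⟩ := μ
  unfold bdist at h ⊢
  cases q <;> simp only [ae_ne, ae_nw, ae_sw, ae_se, src_mk] at h ⊢ <;> omega

/-- the invariants along the path -/
lemma inv {F : Set Edg} {v : Vtx} {σ : St} (h1 : Reach F v σ.1) (h2 : Outer F v (face σ)) :
    ∀ j, Reach F v (orb F σ j).1 ∧ Outer F v (face (orb F σ j)) := by
  intro j
  induction j with
  | zero => exact ⟨h1, h2⟩
  | succ j ih =>
    obtain ⟨h3, h4⟩ := ih
    rw [orb_succ]
    by_cases ha : ae (orb F σ j) ∈ F
    · rw [nxt_open ha, fmv]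
      exact ⟨h3.trans (Adj.reach (mv_adj ha)), h4⟩
    · rw [nxt_closed ha, rt_fst]
      refine ⟨h3, ?_⟩
      have h5 : ae (orb F σ j) ∈ (EC F v)ᶜ := fun h => ha h.1
      have h6 : DAdj (EC F v)ᶜ (face (rt (orb F σ j))) (face (orb F σ j)) := by
        rcases frt (orb F σ j) with h | h
        · exact ⟨_, h5, Or.inl h⟩
        · exact ⟨_, h5, Or.inr h⟩
      exact (DAdj.reach h6).trans h4

section

variable {F : Set Edg} {σ : St} {N : ℕ} (h0 : 0 < N) (hN : orb F σ N = σ)
  (hmin : ∀ j, 0 < j → j < N → orb F σ j ≠ σ)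

include hN in
lemma orb_mod (m : ℕ) : orb F σ (m % N) = orb F σ m := by
  have hper : Function.IsPeriodicPt (nxt F) N σ := hN
  exact hper.iterate_mod_apply m

include hN hmin in
lemma orb_inj {i j : ℕ} (hij : i < j) (hj : j < N) : orb F σ i ≠ orb F σ j := by
  intro h
  apply hmin (N - j + i) (by omega) (by omega)
  rw [orb_add, h, ← orb_add]
  have : N - j + j = N := by omega
  rw [this, hN]

include h0 hN hmin in
/-- four turns are impossible for long paths -/
lemma first_move (h4 : 4 < N) (i : ℕ) : ∃ k ≤ 3, ae (orb F σ (i + k)) ∈ F ∧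
    (orb F σ (i + k)).1 = (orb F σ i).1 := by
  by_cases a0 : ae (orb F σ i) ∈ F
  · exact ⟨0, by omega, a0, rfl⟩
  have e1 : orb F σ (i + 1) = rt (orb F σ i) := by rw [orb_succ, nxt_closed a0]
  by_cases a1 : ae (orb F σ (i + 1)) ∈ F
  · exact ⟨1, by omega, a1, by rw [e1, rt_fst]⟩
  have e2 : orb F σ (i + 2) = rt (orb F σ (i + 1)) := by
    rw [← nxt_closed a1, ← orb_succ]
  by_cases a2 : ae (orb F σ (i + 2)) ∈ F
  · exact ⟨2, by omega, a2, by rw [e2, e1, rt_fst, rt_fst]⟩
  have e3 : orb F σ (i + 3) = rt (orb F σ (i + 2)) := by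
    rw [← nxt_closed a2, ← orb_succ]
  by_cases a3 : ae (orb F σ (i + 3)) ∈ F
  · exact ⟨3, by omega, a3, by rw [e3, e2, e1, rt_fst, rt_fst, rt_fst]⟩
  exfalso
  have e4 : orb F σ (i + 4) = rt (orb F σ (i + 3)) := by
    rw [← nxt_closed a3, ← orb_succ]
  have e5 : orb F σ (i + 4) = orb F σ i := by rw [e4, e3, e2, e1, rt4]
  rw [← orb_mod hN (i + 4), ← orb_mod hN i] at e5
  have h5 : i % N < N := Nat.mod_lt _ h0
  have h6 : (i + 4) % N < N := Nat.mod_lt _ h0
  have h7 : (i + 4) % N ≠ i % N := by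
    intro h8
    have h9 : (i + 4) ≡ i [MOD N] := h8
    have h10 : N ∣ (i + 4) - i := (Nat.modEq_iff_dvd' (by omega)).1 h9.symm
    have h11 : N ∣ 4 := by simpa using h10
    have := Nat.le_of_dvd (by norm_num) h11
    omega
  rcases lt_or_gt_of_ne h7 with h | h
  · exact orb_inj hN hmin h h5 e5
  · exact orb_inj hN hmin h h6 e5.symm

open Classical in
include h0 hN hmin in
/-- the number of states satisfying a condition on the vertex -/
lemma count_states (h4 : 4 < N) (p : Vtx → Prop) :
    ((Finset.range N).filter (fun j => p (orb F σ j).1)).card ≤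
      4 * (((Finset.range N).image (orb F σ)).filter (fun μ => ae μ ∈ F ∧ p μ.1)).card := by
  have h1 : ((Finset.range N).filter (fun j => p (orb F σ j).1)).card =
      (((Finset.range N).filter (fun j => p (orb F σ j).1)).image (orb F σ)).card := by
    symm
    apply Finset.card_image_of_injOn
    intro i hi j hj hij
    have hi' := (Finset.mem_range.1 (Finset.mem_filter.1 hi).1)
    have hj' := (Finset.mem_range.1 (Finset.mem_filter.1 hj).1)
    by_contra hne
    rcases lt_or_gt_of_ne hne with h | h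
    · exact orb_inj hN hmin h hj' hij
    · exact orb_inj hN hmin h hi' hij.symm
  rw [h1]
  have h2 : ((Finset.range N).filter (fun j => p (orb F σ j).1)).image (orb F σ) ⊆
      (((Finset.range N).image (orb F σ)).filter (fun μ => ae μ ∈ F ∧ p μ.1)).biUnion
        (fun μ => (Finset.univ : Finset Q4).image (fun q => (μ.1, q))) := by
    intro ρ hρ
    obtain ⟨i, hi, rfl⟩ := Finset.mem_image.1 hρ
    obtain ⟨hi1, hi2⟩ := Finset.mem_filter.1 hi
    obtain ⟨k, -, hk1, hk2⟩ := first_move h0 hN hmin h4 i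
    rw [Finset.mem_biUnion]
    refine ⟨orb F σ (i + k), ?_, ?_⟩
    · rw [Finset.mem_filter, Finset.mem_image]
      refine ⟨⟨(i + k) % N, Finset.mem_range.2 (Nat.mod_lt _ h0), orb_mod hN _⟩, hk1, ?_⟩
      rw [hk2]
      exact hi2
    · rw [Finset.mem_image]
      exact ⟨(orb F σ i).2, Finset.mem_univ _, by rw [hk2]⟩
  refine (Finset.card_le_card h2).trans (Finset.card_biUnion_le.trans ?_)
  calc ∑ μ ∈ ((Finset.range N).image (orb F σ)).filter (fun μ => ae μ ∈ F ∧ p μ.1),
        ((Finset.univ : Finset Q4).image (fun q => (μ.1, q))).card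
      ≤ ∑ μ ∈ ((Finset.range N).image (orb F σ)).filter (fun μ => ae μ ∈ F ∧ p μ.1), 4 := by
        apply Finset.sum_le_sum
        intro μ _
        refine Finset.card_image_le.trans ?_
        rfl
    _ = _ := by rw [Finset.sum_const, smul_eq_mul, mul_comm]

end

open Classical in
/-- the number of moves in terms of sides of edges -/
lemma count_moves {F : Set Edg} {v : Vtx} (S : Finset St) (E : Finset Edg) (p : Vtx → Prop)
    (hS : ∀ μ ∈ S, Reach F v μ.1 ∧ Outer F v (face μ))
    (hE : ∀ μ ∈ S, ae μ ∈ F → p μ.1 → ae μ ∈ E) :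
    (S.filter (fun μ => ae μ ∈ F ∧ p μ.1)).card ≤ ∑ e ∈ E, if e ∈ EC F v then
      ((if Outer F v (dsrc e) then 1 else 0) + (if Outer F v (dtgt e) then 1 else 0)) else 0 := by
  rw [Finset.card_eq_sum_card_fiberwise (f := ae) (t := E)]
  · apply Finset.sum_le_sum
    intro e _
    by_cases hf : ((S.filter (fun μ => ae μ ∈ F ∧ p μ.1)).filter (fun μ => ae μ = e)).Nonempty
    · obtain ⟨μ, hμ⟩ := hf
      have hμ1 := (Finset.mem_filter.1 hμ)
      have hμ2 := (Finset.mem_filter.1 hμ1.1)
      have hEC : e ∈ EC F v := by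
        rw [← hμ1.2]
        refine ⟨hμ2.2.1, ?_⟩
        have h1 := (hS μ hμ2.1).1
        rcases vert μ with h2 | h2
        · rw [← h2]; exact h1
        · have h3 : Reach F v (tgt (ae μ)) := by rw [← h2]; exact h1
          exact (H342P.reach_src_tgt F v hμ2.2.1).2 h3
      rw [if_pos hEC]
      have hsub : (S.filter (fun μ => ae μ ∈ F ∧ p μ.1)).filter (fun μ => ae μ = e) ⊆
          (if Outer F v (dsrc e) then {st1 e} else ∅) ∪
            (if Outer F v (dtgt e) then {st2 e} else ∅) := by
        intro ν hν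
        have hν1 := (Finset.mem_filter.1 hν)
        have hν2 := (Finset.mem_filter.1 hν1.1)
        have h1 := (hS ν hν2.1).2
        rw [Finset.mem_union]
        rcases st_cases ν with ⟨h2, h3⟩ | ⟨h2, h3⟩
        · left
          rw [h3, hν1.2] at h1
          rw [if_pos h1, Finset.mem_singleton, ← hν1.2]
          exact h2
        · right
          rw [h3, hν1.2] at h1
          rw [if_pos h1, Finset.mem_singleton, ← hν1.2]
          exact h2
      refine (Finset.card_le_card hsub).trans ((Finset.card_union_le _ _).trans ?_)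
      apply Nat.add_le_add
      · split_ifs <;> simp
      · split_ifs <;> simp
    · rw [Finset.not_nonempty_iff_eq_empty] at hf
      rw [hf, Finset.card_empty]
      exact Nat.zero_le _
  · intro μ hμ
    have hμ1 := (Finset.mem_filter.1 hμ)
    exact hE μ hμ1.1 hμ1.2.1 hμ1.2.2

lemma le_card_filter {N : ℕ} {p : ℕ → Prop} [DecidablePred p] (h : ∀ j, p j) :
    N ≤ ((Finset.range N).filter p).card := by
  rw [Finset.filter_true_of_mem (fun j _ => h j), Finset.card_range]

/-- CNT -/
theorem cnt : S_CNT := by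
  classical
  intro n F v σ N hn hF hv h0 hcl hout hN hmin
  have hcl' : Reach (↑F : Set Edg) v σ.1 := (H342P.Plain.mem_cluster F v σ.1).1 hcl
  have hout' : Outer (↑F : Set Edg) v (face σ) := (H342P.Plain.outer_iff F v (face σ)).1 hout
  have hinv := inv hcl' hout'
  rcases Nat.lt_or_ge 4 N with h4 | h4
  · have hS : ∀ μ ∈ (Finset.range N).image (orb (↑F) σ),
        Reach (↑F : Set Edg) v μ.1 ∧ Outer (↑F : Set Edg) v (face μ) := by
      intro μ hμ
      obtain ⟨i, -, rfl⟩ := Finset.mem_image.1 hμ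
      exact hinv i
    constructor
    · have h1 := count_states h0 hN hmin h4 (fun _ => True)
      have h2 := count_moves ((Finset.range N).image (orb (↑F) σ)) (RE 0 n 0 n) (fun _ => True)
        hS (fun μ _ ha _ => by
          have h3 := hF (Finset.mem_coe.1 ha)
          rwa [H342P.Plain.edges_eq] at h3)
      rw [H342P.Plain.perimeter_eq hF v]
      unfold H342P.per
      refine (le_trans (le_trans ?_ h1) (Nat.mul_le_mul_left 4 h2)).trans
        (le_trans (le_of_eq ?_) (Nat.le_add_right _ 4))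
      · have h5 := le_card_filter (N := N) (p := fun _ => True) (fun _ => trivial)
        refine le_trans h5 (le_of_eq ?_)
        congr!
      · congr!
    · intro ρ
      have h1 := count_states h0 hN hmin h4 (fun w => bdist n w < ρ)
      have h2 := count_moves ((Finset.range N).image (orb (↑F) σ))
        ((RE 0 n 0 n).filter (fun e => bdist n (src e) < ρ + 1)) (fun w => bdist n w < ρ)
        hS (fun μ _ ha hb => by
          have h3 := hF (Finset.mem_coe.1 ha)
          rw [H342P.Plain.edges_eq] at h3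
          exact Finset.mem_filter.2 ⟨h3, bdist_src hb⟩)
      unfold bdN H342L.perL
      refine (le_trans (le_of_eq ?_) h1).trans ((Nat.mul_le_mul_left 4 h2).trans
        (le_trans (le_of_eq ?_) (Nat.le_add_right _ 4)))
      · congr!
      · congr!
  · constructor
    · omega
    · intro ρ
      have h1 : bdN n ρ F σ N ≤ N := by
        unfold bdN
        refine (Finset.card_filter_le _ _).trans ?_
        rw [Finset.card_range]
      omega

end Pool.Agent.Y945.LG
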